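import Mathlib

namespace Pool.Agent.Results.MP_12d26a_nt.Spectrum

open Filter Topology Set

/-- `Good ζ α w`: for every sufficiently large real `X` there are integers `x₀, x₁` with
`1 ≤ x₁ ≤ X` and `|α + x₀ + ζ x₁| ≤ X ^ (-w)`. -/
def Good (ζ α w : ℝ) : Prop :=
  ∃ X₀ : ℝ, ∀ X : ℝ, X₀ ≤ X → ∃ x₀ x₁ : ℤ,
    1 ≤ x₁ ∧ (x₁ : ℝ) ≤ X ∧ |α + x₀ + ζ * x₁| ≤ X ^ (-w)

/-- The uniform inhomogeneous exponent: the supremum (in the extended reals) of all real `w`
with `Good ζ α w`. -/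
noncomputable def what (ζ α : ℝ) : EReal :=
  sSup {v : EReal | ∃ w : ℝ, Good ζ α w ∧ v = (w : EReal)}

/-- The spectrum: all values of the exponent at real `α` outside `ℤ + ℤ ζ`. -/
def Spec (ζ : ℝ) : Set EReal :=
  {v | ∃ α : ℝ, (∀ a b : ℤ, α ≠ a + b * ζ) ∧ what ζ α = v}

/-- Liouville numbers have very good rational approximations with large reduced denominator. -/
lemma exists_approx {ζ : ℝ} (hζ : Liouville ζ) (M m : ℕ) :
    ∃ r : ℚ, M ≤ r.den ∧ |ζ - r| < 1 / (r.den : ℝ) ^ m := by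
  have h1 := hζ.irrational.eventually_forall_le_dist_cast_rat_of_den_le M
  have h2 : Tendsto (fun b : ℕ => 1 / (b : ℝ) ^ (m + 1)) atTop (𝓝 0) := by
    simp only [one_div]
    refine tendsto_inv_atTop_zero.comp ?_
    exact (tendsto_pow_atTop (Nat.succ_ne_zero m)).comp tendsto_natCast_atTop_atTop
  have h3 := h2.eventually h1
  obtain ⟨b, ⟨a, hne, hlt⟩, hb, hb1⟩ := ((hζ.frequently_exists_num (m + 1)).and_eventually
    (h3.and (eventually_ge_atTop 1))).exists
  have hcast : (((a : ℚ) / (b : ℚ) : ℚ) : ℝ) = a / b := by push_cast; rfl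
  have hdvd : ((a : ℚ) / (b : ℚ)).den ∣ b := by
    have := Rat.den_dvd a (b : ℤ)
    rw [Rat.divInt_eq_div] at this
    exact_mod_cast this
  have hle : ((a : ℚ) / (b : ℚ)).den ≤ b := Nat.le_of_dvd (by omega) hdvd
  have hpos : 0 < ((a : ℚ) / (b : ℚ)).den := Rat.den_pos _
  refine ⟨(a : ℚ) / (b : ℚ), ?_, ?_⟩
  · by_contra hcon
    have := hb ((a : ℚ) / (b : ℚ)) (by omega)
    rw [Real.dist_eq, hcast] at this
    linarith
  · rw [hcast]
    refine lt_of_lt_of_le hlt ?_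
    have hposR : (1 : ℝ) ≤ (((a : ℚ) / (b : ℚ)).den : ℝ) := by exact_mod_cast hpos
    have hleR : ((((a : ℚ) / (b : ℚ)).den : ℕ) : ℝ) ≤ (b : ℝ) := by exact_mod_cast hle
    have hb1R : (1 : ℝ) ≤ (b : ℝ) := by exact_mod_cast hb1
    apply one_div_le_one_div_of_le
    · positivity
    · calc ((((a : ℚ) / (b : ℚ)).den : ℕ) : ℝ) ^ m ≤ (b : ℝ) ^ m := by gcongr
        _ ≤ (b : ℝ) ^ (m + 1) := pow_le_pow_right₀ hb1R (by omega)

/-- the linear form `q ζ - p` of a rational `p / q` -/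
noncomputable def dl (ζ : ℝ) (r : ℚ) : ℝ := r.den * ζ - r.num

/-- the digit attached to a rational approximation -/
noncomputable def bb (θ ζ : ℝ) (r : ℚ) : ℕ :=
  max 1 ⌊(1 / |dl ζ r|) ^ θ / (8 * r.den)⌋₊

lemma exists_seq {ζ : ℝ} (hζ : Liouville ζ) (θ : ℝ) : ∃ f : ℕ → ℚ,
    (∀ j, 2 ≤ (f j).den ∧ |dl ζ (f j)| < 1 / ((f j).den : ℝ) ^ (j + 4)) ∧
    (∀ j, 5 * (bb θ ζ (f j) * (f j).den) ≤ (f (j + 1)).den ∧
      1 / |dl ζ (f j)| ≤ ((f (j + 1)).den : ℝ)) := by
  have key : ∀ (M m : ℕ), ∃ r : ℚ, M ≤ r.den ∧ 2 ≤ r.den ∧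
      |dl ζ r| < 1 / (r.den : ℝ) ^ m := by
    intro M m
    obtain ⟨r, hr1, hr2⟩ := exists_approx hζ (max M 2) (m + 1)
    have hd : (0 : ℝ) < r.den := by exact_mod_cast Rat.den_pos r
    refine ⟨r, le_trans (le_max_left _ _) hr1, le_trans (le_max_right _ _) hr1, ?_⟩
    have e : dl ζ r = r.den * (ζ - r) := by
      unfold dl
      have : (r : ℝ) = r.num / r.den := by
        rw [Rat.cast_def]
      rw [this]; field_simp
    rw [e, abs_mul, abs_of_pos hd]
    calc (r.den : ℝ) * |ζ - r| < r.den * (1 / (r.den : ℝ) ^ (m + 1)) := by gcongr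
      _ = 1 / (r.den : ℝ) ^ m := by rw [pow_succ]; field_simp
  choose g hg1 hg2 hg3 using key
  let M : ℚ → ℕ := fun r => max (5 * (bb θ ζ r * r.den)) ⌈1 / |dl ζ r|⌉₊
  let f : ℕ → ℚ := fun n => Nat.rec (g 0 4) (fun j r => g (M r) (j + 1 + 4)) n
  have hf : ∀ j, f (j + 1) = g (M (f j)) (j + 1 + 4) := fun j => rfl
  refine ⟨f, ?_, ?_⟩
  · intro j
    cases j with
    | zero => exact ⟨hg2 0 4, hg3 0 4⟩
    | succ j => rw [hf]; exact ⟨hg2 _ _, hg3 _ _⟩
  · intro j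
    rw [hf]
    refine ⟨le_trans (le_max_left _ _) (hg1 (M (f j)) (j + 1 + 4)), ?_⟩
    refine le_trans (Nat.le_ceil _) ?_
    exact_mod_cast le_trans (le_max_right _ _) (hg1 (M (f j)) (j + 1 + 4))

section core

variable (ζ : ℝ) (q b : ℕ → ℕ) (p : ℕ → ℤ)

/-- the partial sums of `b_i q_i` -/
def NN (J : ℕ) : ℕ := ∑ i ∈ Finset.range J, b i * q i

/-- the partial sums of `b_i p_i` -/
def PP (J : ℕ) : ℤ := ∑ i ∈ Finset.range J, (b i : ℤ) * p i

/-- the terms `b_i (q_i ζ - p_i)` -/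
noncomputable def tm (j : ℕ) : ℝ := (b j : ℝ) * (q j * ζ - p j)

/-- the inhomogeneous part -/
noncomputable def al : ℝ := - ∑' j, tm ζ q b p j

variable (hq : ∀ j, 2 ≤ q j) (hb : ∀ j, 1 ≤ b j)
  (h3 : ∀ j, 8 * q j * |tm ζ q b p j| ≤ 1)
  (h4 : ∀ j, 5 * (b j * q j) ≤ q (j + 1))
  (h5 : ∀ j, 1 ≤ q (j + 1) * |tm ζ q b p j|)

include hq h3 h5 in
lemma decay (j : ℕ) : |tm ζ q b p (j + 1)| ≤ |tm ζ q b p j| / 8 := by
  have h1 := h3 (j + 1)
  have h2 := h5 j
  have hq' : (2 : ℝ) ≤ q (j + 1) := by exact_mod_cast hq (j + 1)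
  have : (q (j + 1) : ℝ) * (8 * |tm ζ q b p (j + 1)|) ≤ q (j + 1) * |tm ζ q b p j| := by
    linarith
  have := le_of_mul_le_mul_left this (by linarith)
  linarith

include hq h3 h5 in
lemma decay' (J j : ℕ) : |tm ζ q b p (j + J)| ≤ |tm ζ q b p J| * (1 / 8) ^ j := by
  induction j with
  | zero => simp
  | succ j ih =>
    have := decay ζ q b p hq h3 h5 (j + J)
    rw [show j + 1 + J = j + J + 1 by ring]
    calc |tm ζ q b p (j + J + 1)| ≤ |tm ζ q b p (j + J)| / 8 := this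
      _ ≤ |tm ζ q b p J| * (1 / 8) ^ j / 8 := by gcongr
      _ = |tm ζ q b p J| * (1 / 8) ^ (j + 1) := by rw [pow_succ]; ring

include hq h3 h5 in
lemma summ : Summable (tm ζ q b p) := by
  refine Summable.of_norm_bounded (g := fun j => |tm ζ q b p 0| * (1 / 8) ^ j) ?_ ?_
  · exact (summable_geometric_of_lt_one (by norm_num) (by norm_num)).mul_left _
  · intro j
    have := decay' ζ q b p hq h3 h5 0 j
    simpa using this

/-- tails -/
noncomputable def TT (J : ℕ) : ℝ := ∑' j, tm ζ q b p (j + J)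

include hq h3 h5 in
lemma tail_bound (J : ℕ) : |TT ζ q b p J| ≤ 8 / 7 * |tm ζ q b p J| := by
  have h1 : HasSum (fun j : ℕ => |tm ζ q b p J| * (1 / 8 : ℝ) ^ j)
      (|tm ζ q b p J| * (1 - 1 / 8)⁻¹) :=
    (hasSum_geometric_of_lt_one (by norm_num) (by norm_num)).mul_left _
  have h2 := tsum_of_norm_bounded h1 (f := fun j => tm ζ q b p (j + J))
    (fun j => by simpa using decay' ζ q b p hq h3 h5 J j)
  rw [Real.norm_eq_abs] at h2
  unfold TT
  refine le_trans h2 (le_of_eq ?_)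
  norm_num
  ring

include hq h3 h5 in
lemma tail_succ (J : ℕ) : TT ζ q b p J = tm ζ q b p J + TT ζ q b p (J + 1) := by
  have hs : Summable (fun j => tm ζ q b p (j + J)) :=
    (summable_nat_add_iff J).2 (summ ζ q b p hq h3 h5)
  unfold TT
  rw [hs.tsum_eq_zero_add]
  simp only [zero_add]
  congr 1
  apply tsum_congr
  intro j
  congr 1
  ring

include hq h3 h5 in
lemma al_eq (J : ℕ) : al ζ q b p = PP b p J - ζ * NN q b J - TT ζ q b p J := by
  have h := (summ ζ q b p hq h3 h5).sum_add_tsum_nat_add J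
  unfold al TT
  rw [← h]
  unfold PP NN tm
  push_cast
  have : ∑ i ∈ Finset.range J, (b i : ℝ) * ((q i : ℝ) * ζ - p i)
      = ζ * ∑ i ∈ Finset.range J, (b i : ℝ) * (q i : ℝ) - ∑ i ∈ Finset.range J, (b i : ℝ) * p i := by
    rw [Finset.mul_sum, ← Finset.sum_sub_distrib]
    apply Finset.sum_congr rfl
    intro i _
    ring
  rw [this]
  ring

include hb h4 in
lemma NN_le (J : ℕ) : 4 * NN q b J ≤ q J := by
  induction J with
  | zero => simp [NN]
  | succ J ih =>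
    unfold NN at ih ⊢
    rw [Finset.sum_range_succ]
    have h1 := h4 J
    have h2 : q J ≤ b J * q J := Nat.le_mul_of_pos_left _ (hb J)
    omega

include hq hb in
lemma NN_ge (J : ℕ) : J ≤ NN q b J := by
  induction J with
  | zero => simp
  | succ J ih =>
    unfold NN at ih ⊢
    rw [Finset.sum_range_succ]
    have h2 : q J ≤ b J * q J := Nat.le_mul_of_pos_left _ (hb J)
    have := hq J
    omega

include hq h3 h5 in
lemma upper (J : ℕ) :
    |al ζ q b p + ((-(PP b p J) : ℤ) : ℝ) + ζ * ((NN q b J : ℤ) : ℝ)| ≤ 2 * |tm ζ q b p J| := by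
  rw [al_eq ζ q b p hq h3 h5 J]
  have h := tail_bound ζ q b p hq h3 h5 J
  have h' := abs_nonneg (tm ζ q b p J)
  have e : (PP b p J : ℝ) - ζ * NN q b J - TT ζ q b p J + ((-(PP b p J) : ℤ) : ℝ)
      + ζ * ((NN q b J : ℤ) : ℝ) = - TT ζ q b p J := by
    push_cast; ring
  rw [e, abs_neg]
  linarith

include hq hb h3 h4 h5 in
lemma lower (hcop : ∀ j, IsCoprime (p j) (q j : ℤ)) (J : ℕ) (x₀ x₁ : ℤ)
    (hx : |(x₁ : ℝ)| ≤ b J * q J / 4) :
    |tm ζ q b p J| / 4 ≤ |al ζ q b p + x₀ + ζ * x₁| := by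
  rw [al_eq ζ q b p hq h3 h5 J]
  set y : ℤ := x₁ - NN q b J with hy
  set x : ℤ := x₀ + PP b p J with hxx
  have e : (PP b p J : ℝ) - ζ * NN q b J - TT ζ q b p J + x₀ + ζ * x₁
      = x + ζ * y - TT ζ q b p J := by
    rw [hy, hxx]; push_cast; ring
  rw [e]
  have hqJ : (2 : ℝ) ≤ q J := by exact_mod_cast hq J
  have hbJ : (1 : ℝ) ≤ b J := by exact_mod_cast hb J
  have hN : 4 * (NN q b J : ℝ) ≤ q J := by exact_mod_cast NN_le q b hb h4 J
  have hN0 : (0 : ℝ) ≤ NN q b J := by positivity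
  have hqb : (q J : ℝ) ≤ b J * q J := by nlinarith
  have hyabs : |(y : ℝ)| ≤ b J * q J / 2 := by
    have : (y : ℝ) = x₁ - NN q b J := by rw [hy]; push_cast; ring
    rw [this]
    calc |(x₁ : ℝ) - NN q b J| ≤ |(x₁ : ℝ)| + |(NN q b J : ℝ)| := abs_sub _ _
      _ ≤ b J * q J / 4 + q J / 4 := by rw [abs_of_nonneg hN0]; linarith
      _ ≤ b J * q J / 2 := by linarith
  have hT := tail_bound ζ q b p hq h3 h5 J
  have hT1 := tail_bound ζ q b p hq h3 h5 (J + 1)
  have hdec := decay ζ q b p hq h3 h5 J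
  have hβ := abs_nonneg (tm ζ q b p J)
  have h3J := h3 J
  set δ : ℝ := q J * ζ - p J with hδ
  have htm : |tm ζ q b p J| = b J * |δ| := by
    unfold tm
    rw [abs_mul, abs_of_nonneg (by linarith : (0 : ℝ) ≤ b J)]
  by_cases hz : (q J : ℤ) * x + p J * y = 0
  · -- y = q t, x = - p t
    have hdvd : (q J : ℤ) ∣ y := by
      have h1 : (q J : ℤ) ∣ p J * y := ⟨-x, by linarith⟩
      exact (hcop J).symm.dvd_of_dvd_mul_left h1
    obtain ⟨t, ht⟩ := hdvd
    have hq0 : (q J : ℤ) ≠ 0 := by have := hq J; omega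
    have hxt : x = - p J * t := by
      rw [ht] at hz
      have : (q J : ℤ) * (x + p J * t) = 0 := by linarith
      rcases mul_eq_zero.1 this with h | h
      · exact absurd h hq0
      · linarith
    have htR : |(t : ℝ)| ≤ b J / 2 := by
      have h1 : (y : ℝ) = q J * t := by rw [ht]; push_cast; ring
      rw [h1, abs_mul, abs_of_pos (by linarith : (0 : ℝ) < q J)] at hyabs
      have h2 : (q J : ℝ) * |(t : ℝ)| ≤ q J * (b J / 2) := by linarith
      exact le_of_mul_le_mul_left h2 (by linarith)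
    have h1 : (x : ℝ) + ζ * y - TT ζ q b p J = (t - b J) * δ - TT ζ q b p (J + 1) := by
      rw [tail_succ ζ q b p hq h3 h5 J]
      have e1 : tm ζ q b p J = b J * δ := rfl
      rw [e1, hxt, ht, hδ]
      push_cast
      ring
    rw [h1]
    have h2 : (b J / 2 : ℝ) * |δ| ≤ |((t : ℝ) - b J) * δ| := by
      rw [abs_mul]
      gcongr
      have := abs_le.1 htR
      rw [abs_sub_comm]
      calc (b J / 2 : ℝ) ≤ b J - t := by linarith
        _ ≤ |(b J : ℝ) - t| := le_abs_self _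
    have h3' := abs_sub_abs_le_abs_sub (((t : ℝ) - b J) * δ) (TT ζ q b p (J + 1))
    have h2' : |tm ζ q b p J| / 2 ≤ |((t : ℝ) - b J) * δ| := by rw [htm]; linarith
    linarith
  · have hz1 : (1 : ℝ) ≤ |(((q J : ℤ) * x + p J * y : ℤ) : ℝ)| := by
      have : 1 ≤ |(q J : ℤ) * x + p J * y| := Int.one_le_abs hz
      exact_mod_cast this
    have hz2 : (((q J : ℤ) * x + p J * y : ℤ) : ℝ) = q J * (x + ζ * y) - δ * y := by
      rw [hδ]; push_cast; ring
    rw [hz2] at hz1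
    have h4' := abs_sub (q J * ((x : ℝ) + ζ * y)) (δ * y)
    rw [abs_mul, abs_mul δ, abs_of_pos (by linarith : (0 : ℝ) < q J)] at h4'
    have h5' : |δ| * |(y : ℝ)| ≤ |δ| * (b J * q J / 2) := by gcongr
    have h6 : (1 : ℝ) ≤ q J * (|(x : ℝ) + ζ * y| + b J * |δ| / 2) := by
      nlinarith
    have h7 : q J * (8 * |tm ζ q b p J|) ≤ q J * (|(x : ℝ) + ζ * y| + b J * |δ| / 2) := by
      linarith
    have h8 := le_of_mul_le_mul_left h7 (by linarith)
    have h9 := abs_sub_abs_le_abs_sub ((x : ℝ) + ζ * y) (TT ζ q b p J)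
    rw [← htm] at h8
    linarith

end core

section digits

variable {ζ θ : ℝ} (r : ℚ) (n : ℕ)

lemma bb_ge_one : 1 ≤ bb θ ζ r := le_max_left _ _

lemma bb_upper (hD : 0 < |dl ζ r|) :
    (bb θ ζ r : ℝ) ≤ 1 + (1 / |dl ζ r|) ^ θ / (8 * r.den) := by
  have h0 : 0 ≤ (1 / |dl ζ r|) ^ θ / (8 * r.den) := by positivity
  unfold bb
  rw [Nat.cast_max]
  apply max_le
  · simpa using h0
  · refine le_trans (Nat.floor_le h0) ?_
    linarith

lemma bb_lower (hD : 0 < |dl ζ r|) :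
    (1 / |dl ζ r|) ^ θ / (16 * r.den) ≤ (bb θ ζ r : ℝ) := by
  have h0 : 0 ≤ (1 / |dl ζ r|) ^ θ / (8 * r.den) := by positivity
  have h1 := Nat.lt_floor_add_one ((1 / |dl ζ r|) ^ θ / (8 * r.den))
  have h2 : (1 : ℝ) ≤ (bb θ ζ r : ℝ) := by exact_mod_cast bb_ge_one r
  have h3 : ((⌊(1 / |dl ζ r|) ^ θ / (8 * r.den)⌋₊ : ℕ) : ℝ) ≤ (bb θ ζ r : ℝ) := by
    unfold bb
    rw [Nat.cast_max]
    exact le_max_right _ _
  have h4 : (1 / |dl ζ r|) ^ θ / (16 * r.den) = ((1 / |dl ζ r|) ^ θ / (8 * r.den)) / 2 := by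
    ring
  rw [h4]
  linarith

lemma bb_small (hD : 0 < |dl ζ r|) (hd : 2 ≤ r.den) (hθ1 : θ ≤ 1)
    (hn : |dl ζ r| < 1 / (r.den : ℝ) ^ (n + 4)) :
    8 * (r.den : ℝ) * ((bb θ ζ r : ℝ) * |dl ζ r|) ≤ 1 := by
  have hd' : (2 : ℝ) ≤ r.den := by exact_mod_cast hd
  have hd0 : (0 : ℝ) < r.den := by linarith
  have hpow : (r.den : ℝ) * 8 ≤ (r.den : ℝ) ^ (n + 4) := by
    calc (r.den : ℝ) * 8 = r.den * 2 ^ 3 := by norm_num
      _ ≤ r.den * (r.den : ℝ) ^ 3 := by gcongr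
      _ = (r.den : ℝ) ^ 4 := by ring
      _ ≤ (r.den : ℝ) ^ (n + 4) := pow_le_pow_right₀ (by linarith) (by omega)
  have hD1 : 8 * (r.den : ℝ) * |dl ζ r| ≤ 1 := by
    have : |dl ζ r| * (r.den : ℝ) ^ (n + 4) < 1 := by
      rwa [lt_div_iff₀ (by positivity)] at hn
    nlinarith
  have hQ1 : 1 ≤ 1 / |dl ζ r| := by
    rw [le_div_iff₀ hD]
    nlinarith
  unfold bb
  rw [Nat.cast_max]
  rcases max_cases ((1 : ℕ) : ℝ) ((⌊(1 / |dl ζ r|) ^ θ / (8 * r.den)⌋₊ : ℕ) : ℝ) with h | h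
  · rw [h.1]; simpa using hD1
  · rw [h.1]
    have h0 : 0 ≤ (1 / |dl ζ r|) ^ θ / (8 * r.den) := by positivity
    have h1 := Nat.floor_le h0
    have h2 : (1 / |dl ζ r|) ^ θ ≤ (1 / |dl ζ r|) ^ (1 : ℝ) :=
      Real.rpow_le_rpow_of_exponent_le hQ1 hθ1
    rw [Real.rpow_one] at h2
    calc 8 * (r.den : ℝ) * ((⌊(1 / |dl ζ r|) ^ θ / (8 * r.den)⌋₊ : ℝ) * |dl ζ r|)
        ≤ 8 * (r.den : ℝ) * (((1 / |dl ζ r|) / (8 * r.den)) * |dl ζ r|) := by
          gcongr
          refine le_trans h1 ?_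
          gcongr
      _ = 1 := by field_simp

end digits

/-- The construction: for every `θ ∈ [0,1]` there is `α` outside `ℤ + ℤ ζ` such that `w` is
admissible when `w > 0, θ (w + 1) < 1`, and not admissible when `θ (w + 1) > 1`. -/
lemma construction {ζ : ℝ} (hζ : Liouville ζ) (θ : ℝ) (hθ0 : 0 ≤ θ) (hθ1 : θ ≤ 1) :
    ∃ α : ℝ, (∀ a b : ℤ, α ≠ a + b * ζ) ∧
      (∀ w : ℝ, 0 < w → θ * (w + 1) < 1 → Good ζ α w) ∧
      (∀ w : ℝ, Good ζ α w → θ * (w + 1) ≤ 1) := by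
  obtain ⟨f, hf1, hf2⟩ := exists_seq hζ θ
  set q : ℕ → ℕ := fun j => (f j).den with hqdef
  set b : ℕ → ℕ := fun j => bb θ ζ (f j) with hbdef
  set p : ℕ → ℤ := fun j => (f j).num with hpdef
  have hq : ∀ j, 2 ≤ q j := fun j => (hf1 j).1
  have hb : ∀ j, 1 ≤ b j := fun j => bb_ge_one _
  have hD : ∀ j, 0 < |dl ζ (f j)| := by
    intro j
    rw [abs_pos]
    intro h0
    have hirr := hζ.irrational
    apply hirr.ne_rat (f j)
    have hd : ((f j).den : ℝ) ≠ 0 := by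
      have := hq j
      have : (f j).den ≠ 0 := by simp only [hqdef] at this; omega
      exact_mod_cast this
    rw [Rat.cast_def, eq_div_iff hd]
    unfold dl at h0
    linarith
  have htm : ∀ j, |tm ζ q b p j| = (b j : ℝ) * |dl ζ (f j)| := by
    intro j
    unfold tm dl
    rw [abs_mul, abs_of_nonneg (by positivity : (0 : ℝ) ≤ b j)]
  have h3 : ∀ j, 8 * q j * |tm ζ q b p j| ≤ 1 := by
    intro j
    rw [htm]
    exact bb_small (f j) j (hD j) (hf1 j).1 hθ1 (hf1 j).2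
  have h4 : ∀ j, 5 * (b j * q j) ≤ q (j + 1) := fun j => (hf2 j).1
  have h5 : ∀ j, 1 ≤ q (j + 1) * |tm ζ q b p j| := by
    intro j
    rw [htm]
    have h := (hf2 j).2
    rw [div_le_iff₀ (hD j)] at h
    have hb' : (1 : ℝ) ≤ b j := by exact_mod_cast hb j
    have h0 : 0 ≤ (q (j + 1) : ℝ) * |dl ζ (f j)| := by positivity
    calc (1 : ℝ) ≤ (q (j + 1) : ℝ) * |dl ζ (f j)| := h
      _ ≤ (b j : ℝ) * ((q (j + 1) : ℝ) * |dl ζ (f j)|) := by nlinarith
      _ = q (j + 1) * ((b j : ℝ) * |dl ζ (f j)|) := by ring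
  have hcop : ∀ j, IsCoprime (p j) (q j : ℤ) := by
    intro j
    have := (f j).reduced
    exact Int.isCoprime_iff_gcd_eq_one.2 (by simpa [Int.gcd, hpdef, hqdef] using this)
  have hNle := NN_le q b hb h4
  have hNge := NN_ge q b hq hb
  have hqJ : ∀ J : ℕ, (J : ℝ) ≤ b J * q J / 4 := by
    intro J
    have h1 : (4 * NN q b J : ℝ) ≤ q J := by exact_mod_cast hNle J
    have h2 : (J : ℝ) ≤ NN q b J := by exact_mod_cast hNge J
    have h3 : (1 : ℝ) ≤ b J := by exact_mod_cast hb J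
    have h4 : (0 : ℝ) ≤ q J := by positivity
    nlinarith
  refine ⟨al ζ q b p, ?_, ?_, ?_⟩
  · -- not in ℤ + ℤ ζ
    intro u v huv
    obtain ⟨J, hJ⟩ := exists_nat_ge |(v : ℝ)|
    have hx : |((-v : ℤ) : ℝ)| ≤ b J * q J / 4 := by
      push_cast
      rw [abs_neg]
      exact le_trans hJ (hqJ J)
    have h := lower ζ q b p hq hb h3 h4 h5 hcop J (-u) (-v) hx
    have e : al ζ q b p + ((-u : ℤ) : ℝ) + ζ * ((-v : ℤ) : ℝ) = 0 := by
      rw [huv]; push_cast; ring
    rw [e, abs_zero] at h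
    have h' := h5 J
    have h'' : (q (J + 1) : ℝ) * |tm ζ q b p J| ≤ q (J + 1) * 0 := by
      gcongr
      linarith
    linarith
  · -- admissible exponents
    intro w hw hθw
    set η : ℝ := 1 - θ - θ * w with hη
    have hη0 : 0 < η := by rw [hη]; linarith
    obtain ⟨J0, hJ0⟩ := exists_nat_ge ((2 + 3 * w) / η)
    have key : ∀ J : ℕ, J0 ≤ J → 2 * |tm ζ q b p J| ≤ ((NN q b (J + 1) : ℕ) : ℝ) ^ (-w) := by
      intro J hJ
      have hqR : (2 : ℝ) ≤ q J := by exact_mod_cast hq J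
      have hbR : (1 : ℝ) ≤ b J := by exact_mod_cast hb J
      have hDJ := hD J
      set D : ℝ := |dl ζ (f J)| with hDdef
      set Q : ℝ := 1 / D with hQdef
      have hQpos : 0 < Q := by positivity
      have hDQ : D = 1 / Q := by rw [hQdef]; field_simp
      have hQbig : (q J : ℝ) ^ (J + 4) ≤ Q := by
        rw [hQdef, le_div_iff₀ hDJ]
        have := (hf1 J).2
        rw [lt_div_iff₀ (by positivity)] at this
        rw [mul_comm]
        exact this.le
      have hQ1 : 1 ≤ Q := le_trans (one_le_pow₀ (by linarith)) hQbig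
      have hQθ : 1 ≤ Q ^ θ := Real.one_le_rpow hQ1 hθ0
      have hbup : (b J : ℝ) ≤ 2 * Q ^ θ := by
        have := bb_upper (θ := θ) (f J) hDJ
        have h8 : Q ^ θ / (8 * (q J : ℝ)) ≤ Q ^ θ := by
          apply div_le_self (by positivity)
          linarith
        calc (b J : ℝ) ≤ 1 + Q ^ θ / (8 * (q J : ℝ)) := this
          _ ≤ 2 * Q ^ θ := by linarith
      have hNup : ((NN q b (J + 1) : ℕ) : ℝ) ≤ 4 * q J * Q ^ θ := by
        have e : NN q b (J + 1) = NN q b J + b J * q J := by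
          unfold NN; rw [Finset.sum_range_succ]
        have h1 : (4 * NN q b J : ℝ) ≤ q J := by exact_mod_cast hNle J
        have h0 : (0 : ℝ) ≤ NN q b J := by positivity
        rw [e]; push_cast
        have h2 : (q J : ℝ) ≤ b J * q J := by nlinarith
        have h3 : (b J : ℝ) * q J ≤ (2 * Q ^ θ) * q J := by gcongr
        linarith
      have hNpos : (0 : ℝ) < ((NN q b (J + 1) : ℕ) : ℝ) := by
        have : 0 < NN q b (J + 1) := lt_of_lt_of_le (Nat.succ_pos J) (hNge (J + 1))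
        exact_mod_cast this
      have hXw : (4 * q J * Q ^ θ) ^ (-w) ≤ ((NN q b (J + 1) : ℕ) : ℝ) ^ (-w) :=
        Real.rpow_le_rpow_of_nonpos hNpos hNup (by linarith)
      refine le_trans ?_ hXw
      rw [htm, ← hDdef]
      have hq0 : (0 : ℝ) < q J := by linarith
      have hexp : Q ^ η = Q / (Q ^ θ * (Q ^ θ) ^ w) := by
        rw [← Real.rpow_mul hQpos.le, ← Real.rpow_add hQpos, hη,
          show 1 - θ - θ * w = 1 - (θ + θ * w) by ring, Real.rpow_sub hQpos, Real.rpow_one]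
      have hmain : 4 * (4 * (q J : ℝ)) ^ w ≤ Q ^ η := by
        have h4q : (4 : ℝ) ≤ (q J : ℝ) ^ (2 : ℝ) := by
          rw [Real.rpow_two]; nlinarith
        have h4q3 : 4 * (q J : ℝ) ≤ (q J : ℝ) ^ (3 : ℝ) := by
          have : (q J : ℝ) ^ (3 : ℝ) = (q J : ℝ) ^ (3 : ℕ) := by
            rw [← Real.rpow_natCast]; norm_num
          rw [this]
          nlinarith [mul_pos hq0 hq0]
        calc 4 * (4 * (q J : ℝ)) ^ w ≤ (q J : ℝ) ^ (2 : ℝ) * ((q J : ℝ) ^ (3 : ℝ)) ^ w := by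
              gcongr
          _ = (q J : ℝ) ^ (2 + 3 * w) := by
              rw [← Real.rpow_mul hq0.le, ← Real.rpow_add hq0]
          _ ≤ (q J : ℝ) ^ (((J + 4 : ℕ) : ℝ) * η) := by
              apply Real.rpow_le_rpow_of_exponent_le (by linarith)
              rw [div_le_iff₀ hη0] at hJ0
              have : (J0 : ℝ) ≤ ((J + 4 : ℕ) : ℝ) := by exact_mod_cast (by omega : J0 ≤ J + 4)
              nlinarith
          _ = ((q J : ℝ) ^ (J + 4)) ^ η := by
              rw [Real.rpow_mul hq0.le, Real.rpow_natCast]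
          _ ≤ Q ^ η := by
              apply Real.rpow_le_rpow (by positivity) hQbig hη0.le
      rw [hexp, le_div_iff₀ (by positivity)] at hmain
      rw [Real.rpow_neg (by positivity), ← one_div, le_div_iff₀ (by positivity),
        Real.mul_rpow (by positivity) (by positivity), hDQ]
      have hQw : 0 < (Q ^ θ) ^ w := by positivity
      have h4w : 0 < (4 * (q J : ℝ)) ^ w := by positivity
      calc 2 * ((b J : ℝ) * (1 / Q)) * ((4 * (q J : ℝ)) ^ w * (Q ^ θ) ^ w)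
          ≤ 2 * ((2 * Q ^ θ) * (1 / Q)) * ((4 * (q J : ℝ)) ^ w * (Q ^ θ) ^ w) := by gcongr
        _ = (4 * (4 * (q J : ℝ)) ^ w * (Q ^ θ * (Q ^ θ) ^ w)) / Q := by ring
        _ ≤ 1 := by rw [div_le_one hQpos]; exact hmain
    -- choose J
    refine ⟨((NN q b (J0 + 1) : ℕ) : ℝ), fun X hX => ?_⟩
    have hex : ∃ J : ℕ, X < ((NN q b (J + 1) : ℕ) : ℝ) := by
      obtain ⟨n, hn⟩ := exists_nat_gt X
      refine ⟨n, lt_of_lt_of_le hn ?_⟩
      exact_mod_cast le_trans (Nat.le_succ n) (hNge (n + 1))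
    classical
    set J := Nat.find hex with hJdef
    have hJspec : X < ((NN q b (J + 1) : ℕ) : ℝ) := Nat.find_spec hex
    have hJgt : J0 + 1 ≤ J := by
      by_contra hcon
      have hle : J ≤ J0 := by omega
      have hmono : NN q b (J + 1) ≤ NN q b (J0 + 1) := by
        unfold NN
        apply Finset.sum_le_sum_of_subset
        apply Finset.range_subset_range.2
        omega
      have : ((NN q b (J + 1) : ℕ) : ℝ) ≤ ((NN q b (J0 + 1) : ℕ) : ℝ) := by exact_mod_cast hmono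
      linarith
    have hJle : ((NN q b J : ℕ) : ℝ) ≤ X := by
      have := Nat.find_min hex (m := J - 1) (by omega)
      rw [not_lt, show J - 1 + 1 = J by omega] at this
      exact this
    refine ⟨-(PP b p J), (NN q b J : ℤ), ?_, ?_, ?_⟩
    · have := hNge J
      have h1 : 1 ≤ NN q b J := by omega
      exact_mod_cast h1
    · exact_mod_cast hJle
    · refine le_trans (upper ζ q b p hq h3 h5 J) (le_trans (key J (by omega)) ?_)
      have hNpos : 0 < NN q b J := by have := hNge J; omega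
      have hXpos : 0 < X := lt_of_lt_of_le (by exact_mod_cast hNpos) hJle
      exact Real.rpow_le_rpow_of_nonpos hXpos hJspec.le (by linarith)
  · -- non admissible exponents
    intro w hgood
    by_contra hcon
    rw [not_le] at hcon
    set κ : ℝ := θ * (w + 1) - 1 with hκ
    have hκ0 : 0 < κ := by rw [hκ]; linarith
    have hw1 : 0 < w + 1 := by
      by_contra h
      rw [not_lt] at h
      nlinarith
    have hw : 0 < w := by nlinarith
    obtain ⟨X0, hX0⟩ := hgood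
    obtain ⟨J1, hJ1⟩ := exists_nat_ge X0
    obtain ⟨J2, hJ2⟩ := exists_nat_ge ((6 * w + 7) / κ)
    set J := max J1 J2 with hJ
    have hqR : (2 : ℝ) ≤ q J := by exact_mod_cast hq J
    have hbR : (1 : ℝ) ≤ b J := by exact_mod_cast hb J
    have hq0 : (0 : ℝ) < q J := by linarith
    have hXJ : X0 ≤ (b J : ℝ) * q J / 4 := by
      refine le_trans hJ1 (le_trans ?_ (hqJ J))
      exact_mod_cast le_max_left _ _
    obtain ⟨x₀, x₁, hx1, hx1X, hx⟩ := hX0 _ hXJ
    have hx1abs : |(x₁ : ℝ)| ≤ (b J : ℝ) * q J / 4 := by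
      rw [abs_of_nonneg]
      · exact hx1X
      · have : (0 : ℤ) ≤ x₁ := by omega
        exact_mod_cast this
    have hlow := lower ζ q b p hq hb h3 h4 h5 hcop J x₀ x₁ hx1abs
    have hcomb := le_trans hlow hx
    rw [htm] at hcomb
    have hDJ := hD J
    set D : ℝ := |dl ζ (f J)| with hDdef
    set Q : ℝ := 1 / D with hQdef
    have hQpos : 0 < Q := by positivity
    have hDQ : D = 1 / Q := by rw [hQdef]; field_simp
    have hQbig : (q J : ℝ) ^ (J + 4) < Q := by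
      rw [hQdef, lt_div_iff₀ hDJ]
      have := (hf1 J).2
      rw [lt_div_iff₀ (by positivity)] at this
      rw [mul_comm]
      exact this
    have hblow : Q ^ θ / (16 * (q J : ℝ)) ≤ b J := bb_lower (θ := θ) (f J) hDJ
    have hQθ : 0 < Q ^ θ := by positivity
    have hXlow : Q ^ θ / 64 ≤ (b J : ℝ) * q J / 4 := by
      calc Q ^ θ / 64 = Q ^ θ / (16 * (q J : ℝ)) * q J / 4 := by field_simp; norm_num
        _ ≤ (b J : ℝ) * q J / 4 := by gcongr
    have hXw : ((b J : ℝ) * q J / 4) ^ (-w) ≤ (Q ^ θ / 64) ^ (-w) :=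
      Real.rpow_le_rpow_of_nonpos (by positivity) hXlow (by linarith)
    have hfin : Q ^ θ / (16 * (q J : ℝ)) * (1 / Q) / 4 ≤ (Q ^ θ / 64) ^ (-w) := by
      calc Q ^ θ / (16 * (q J : ℝ)) * (1 / Q) / 4 ≤ (b J : ℝ) * (1 / Q) / 4 := by gcongr
        _ = (b J : ℝ) * D / 4 := by rw [hDQ]
        _ ≤ _ := le_trans hcomb hXw
    rw [Real.rpow_neg (by positivity), ← one_div, le_div_iff₀ (by positivity),
      Real.div_rpow hQθ.le (by norm_num : (0 : ℝ) ≤ 64) w] at hfin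
    have hexp : Q ^ κ = Q ^ θ * (Q ^ θ) ^ w / Q := by
      rw [← Real.rpow_mul hQpos.le, ← Real.rpow_add hQpos, hκ,
        show θ * (w + 1) - 1 = (θ + θ * w) - 1 by ring, Real.rpow_sub hQpos, Real.rpow_one]
    have h64 : 0 < (64 : ℝ) ^ w := by positivity
    have hle : Q ^ κ ≤ 64 * (q J : ℝ) * 64 ^ w := by
      have e : Q ^ θ / (16 * (q J : ℝ)) * (1 / Q) / 4 * ((Q ^ θ) ^ w / 64 ^ w)
          = Q ^ κ / (64 * (q J : ℝ) * 64 ^ w) := by
        rw [hexp]; field_simp; norm_num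
      rw [e, div_le_one (by positivity)] at hfin
      exact hfin
    have h64q : (64 : ℝ) ≤ (q J : ℝ) ^ (6 : ℝ) := by
      have : (q J : ℝ) ^ (6 : ℝ) = (q J : ℝ) ^ (6 : ℕ) := by
        rw [← Real.rpow_natCast]; norm_num
      rw [this]
      calc (64 : ℝ) = 2 ^ 6 := by norm_num
        _ ≤ (q J : ℝ) ^ 6 := by gcongr
    have hcontra : Q ^ κ < Q ^ κ := by
      calc Q ^ κ ≤ 64 * (q J : ℝ) * 64 ^ w := hle
        _ ≤ (q J : ℝ) ^ (6 : ℝ) * (q J : ℝ) * ((q J : ℝ) ^ (6 : ℝ)) ^ w := by gcongr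
        _ = (q J : ℝ) ^ (6 * w + 7) := by
            rw [← Real.rpow_mul hq0.le, ← Real.rpow_add_one hq0.ne', ← Real.rpow_add hq0]
            congr 1; ring
        _ ≤ (q J : ℝ) ^ (((J + 4 : ℕ) : ℝ) * κ) := by
            apply Real.rpow_le_rpow_of_exponent_le (by linarith)
            rw [div_le_iff₀ hκ0] at hJ2
            have : (J2 : ℝ) ≤ ((J + 4 : ℕ) : ℝ) := by
              exact_mod_cast (by omega : J2 ≤ J + 4)
            nlinarith
        _ = ((q J : ℝ) ^ (J + 4)) ^ κ := by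
            rw [Real.rpow_mul hq0.le, Real.rpow_natCast]
        _ < Q ^ κ := Real.rpow_lt_rpow (by positivity) hQbig hκ0
    exact lt_irrefl _ hcontra

lemma good_of_nonpos (ζ α w : ℝ) (hw : w ≤ 0) : Good ζ α w := by
  refine ⟨1, fun X hX => ⟨-⌊α + ζ⌋, 1, le_refl _, by simpa using hX, ?_⟩⟩
  have h1 : α + ((-⌊α + ζ⌋ : ℤ) : ℝ) + ζ * ((1 : ℤ) : ℝ) = Int.fract (α + ζ) := by
    rw [← Int.self_sub_floor]; push_cast; ring
  rw [h1, abs_of_nonneg (Int.fract_nonneg _)]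
  exact le_trans (Int.fract_lt_one _).le (Real.one_le_rpow hX (by linarith))

/-- For every Liouville number `ζ`, the spectrum of the uniform inhomogeneous exponent over
`α ∈ ℝ \ (ℤ + ℤ ζ)` is the whole interval `[0, ∞]`. -/
theorem result (ζ : ℝ) (hζ : Liouville ζ) : Spec ζ = Set.Icc (0 : EReal) ⊤ := by
  ext c
  constructor
  · rintro ⟨α, -, rfl⟩
    refine ⟨?_, le_top⟩
    apply le_sSup
    exact ⟨0, good_of_nonpos ζ α 0 le_rfl, by simp⟩
  · rintro ⟨hc0, -⟩
    -- find θ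
    obtain ⟨θ, hθ0, hθ1, hlow, hup⟩ : ∃ θ : ℝ, 0 ≤ θ ∧ θ ≤ 1 ∧
        (∀ w : ℝ, (w : EReal) < c → θ * (w + 1) < 1) ∧
        (∀ w : ℝ, θ * (w + 1) ≤ 1 → (w : EReal) ≤ c) := by
      induction c using EReal.rec with
      | bot => simp at hc0
      | top => exact ⟨0, le_rfl, zero_le_one, fun w _ => by simp, fun w _ => le_top⟩
      | coe c =>
        have hc : 0 ≤ c := by exact_mod_cast hc0
        refine ⟨1 / (1 + c), by positivity, ?_, ?_, ?_⟩
        · rw [div_le_one (by positivity)]; linarith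
        · intro w hw
          have hw' : w < c := by exact_mod_cast hw
          rw [div_mul_eq_mul_div, div_lt_one (by positivity)]
          linarith
        · intro w hw
          rw [div_mul_eq_mul_div, div_le_one (by positivity)] at hw
          have : w ≤ c := by linarith
          exact_mod_cast this
    obtain ⟨α, hα1, hα2, hα3⟩ := construction hζ θ hθ0 hθ1
    refine ⟨α, hα1, le_antisymm ?_ ?_⟩
    · apply sSup_le
      rintro v ⟨w, hw, rfl⟩
      exact hup w (hα3 w hw)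
    · apply le_of_forall_lt
      intro v hv
      obtain ⟨w, hw1, hw2⟩ := EReal.lt_iff_exists_real_btwn.1 hv
      refine lt_of_lt_of_le hw1 (le_sSup ⟨w, ?_, rfl⟩)
      rcases le_or_gt w 0 with h | h
      · exact good_of_nonpos ζ α w h
      · exact hα2 w h (hlow w hw2)

end Pool.Agent.Results.MP_12d26a_nt.Spectrum
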